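import Mathlib
import Pool.Agent.Seat74.BM.Crv
import Pool.Agent.Seat74.BM.Near

/-!
# The Shimura maps of the newforms of all elliptic curves with a value `P(c₄, c₆)` near a power of `α`

Q1 asks for constants `κ`, `C` such that the coordinates of `H(γ)` in the basis `Ω₁`, `Ω₂` are at most
`C N ^ κ`, for all newforms `f` of level `N` with integral coefficients and all `γ ∈ Γ₀(N)` with lower
left entry `|r| ≤ N ^ 2`. All elliptic curves over `ℚ` are considered, without any condition on the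
reduction, torsion or isogenies; `c₄`, `c₆` are the invariants of the global minimal equation.

Let `v n` be real exponents such that the sums of `exp (-t v n)` converge for all `t > 0`, for instance
`v n = n` or `v n = (n + 1) ^ δ`. There is a set of Hausdorff dimension zero such that for every real
`α > 1` outside it, every polynomial `P` in two variables over the integers, every `A` and every
`θ < 1` there is an exponent `κ` for which the bounds of Q1 (and the bounds for all matrices, with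
logarithmic growth) hold for ALL elliptic curves such that `P(c₄, c₆) ≠ 0` has a divisor `d` with
`|d - α ^ (v n)| ≤ α ^ (θ v n)` for some `n` and `|c₄|, |c₆| ≤ d ^ A`. For instance `P = x ^ 3 - y ^ 2`
(which is `1728 Δ`): the curves whose discriminant has a large divisor near a power of `α`; or `P = x`,
`P = y`. For given `P`, `A`, `θ` and `κ > 14` the bounds with the exponent `κ` hold for all these curves
with `n ≥ n₀` if `α` is outside a set of dimension at most `A / ((κ - 14) (1 - θ))`.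

Proof. If the height `max (|c₄|³, c₆²)` is at most `M ^ m`, where `M` is the conductor away from `6` (or
`2`), the bounds hold with `κ = 14 + m / 12`, by the lower bound for the periods and the bound
`|H(γ)| ≤ 4 r ^ 2` (`Pool.Agent.N365.SM`, helper365). The other curves with `|c₄|, |c₆| ≤ Y` come from
minimal short models `(a, b)`, `|a|, |b| ≤ 54 Y`, with `M ≤ Y ^ (3 / m)`, and there are at most
`C Y ^ (12 / m + ε)` of these by the theorem `count_all` of helper29 (reduction theory of cubic forms,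
`S`-integral points). The divisors of the values `P(c₄, c₆)` at these curves are a thin set of integers, and
the metric statement follows from `Pool.Agent.R485.AN.dim_pow`.
-/

set_option autoImplicit false
set_option linter.unusedSectionVars false

namespace Pool.Agent.Results.MP_bde085_nt.ValuesNearPowers

open Filter Topology
open Pool.Agent.TH133.SH (IsNewform IsBasis CoordBound Hval)
open Pool.Agent.Seat74.BM (CL count_CL of_not_CL near_one near_all hgt)

/-- `W` is a global minimal Weierstrass equation: `Δ ≠ 0`, and `|Δ|` is smallest among all integral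
Weierstrass equations that are obtained from `W` by a change of variables over `ℚ` -/
def IsGlobalMinimal (W : WeierstrassCurve ℤ) : Prop :=
  W.Δ ≠ 0 ∧ ∀ W' : WeierstrassCurve ℤ,
    (∃ C : WeierstrassCurve.VariableChange ℚ,
      C • W.map (Int.castRingHom ℚ) = W'.map (Int.castRingHom ℚ)) → |W.Δ| ≤ |W'.Δ|

/-- `N₆`, the prime-to-6 part of the conductor of a global minimal equation: the product over the
primes `p ≥ 5` dividing `Δ` of `p` (multiplicative reduction, `p ∤ c₄`) or `p²` (additive,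
`p ∣ c₄`) -/
def conductor6 (W : WeierstrassCurve ℤ) : ℕ :=
  ∏ p ∈ W.Δ.natAbs.primeFactors.filter (fun p => 5 ≤ p), if (p : ℤ) ∣ W.c₄ then p ^ 2 else p

/-- the number of the solutions modulo `p` of the affine equation `W` -/
noncomputable def affineCount (W : WeierstrassCurve ℤ) (p : ℕ) : ℕ :=
  {P : ZMod p × ZMod p | P.2 ^ 2 + (W.a₁ : ZMod p) * P.1 * P.2 + (W.a₃ : ZMod p) * P.2 =
    P.1 ^ 3 + (W.a₂ : ZMod p) * P.1 ^ 2 + (W.a₄ : ZMod p) * P.1 + (W.a₆ : ZMod p)}.ncard

/-- `f = ∑ a(n) q ^ n` is the newform of level `N` of the elliptic curve with the global minimal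
equation `W`, and `ρ` is the Manin constant.  By the theorems of Eichler, Shimura, Atkin, Lehner,
Carayol, Wiles and others all newforms of Q1 and all elliptic curves over `ℚ` occur. -/
structure Attached (N : ℕ) (a : ℕ → ℤ) (W : WeierstrassCurve ℤ) (ρ : ℝ) : Prop where
  /-- `f` is a newform of level `N` with integral coefficients, as in Q1 -/
  newform : IsNewform N a
  /-- the level is divisible by the prime-to-6 part of the conductor (it is the conductor) -/
  level : conductor6 W ∣ N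
  /-- the coefficients `a(p)`, for all primes `p`, including those of bad reduction -/
  trace : ∀ p : ℕ, p.Prime → a p = (p : ℤ) - (affineCount W p : ℤ)
  /-- the Euler factors at the primes dividing the level -/
  euler : ∀ p : ℕ, p.Prime → p ∣ N → ∀ n : ℕ, a (p * n) = a p * a n
  pos : 0 < ρ
  /-- `ρ H(γ)` is in the lattice of the periods of the Néron differential `dx / (2y + a₁x + a₃)`,
  which is the lattice with the invariants `g₂ = c₄ / 12` and `g₃ = c₆ / 216` -/
  periods : ∃ L : PeriodPair, L.g₂ = (W.c₄ : ℂ) / 12 ∧ L.g₃ = (W.c₆ : ℂ) / 216 ∧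
    ∀ p q r s : ℤ, p * s - q * r = 1 → (N : ℤ) ∣ r → (ρ : ℂ) * Hval a p q r s ∈ L.lattice

/-- the polynomial bounds for the coordinates `m(γ)`, `n(γ)` of the Shimura maps of the newforms of
the elliptic curve `W`, for all `γ ∈ Γ₀(N)` with lower left entry at most `N ^ 2`, and, with
logarithmic growth, for all `γ ∈ Γ₀(N)`. The level is at least `2` (there is no newform of weight `2`
and level `1`; the smallest conductor is `11`). -/
def CurveBound (κ : ℝ) (W : WeierstrassCurve ℤ) : Prop :=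
  ∀ (N : ℕ) (a : ℕ → ℤ) (ρ : ℝ), 2 ≤ N → Attached N a W ρ → ∀ Ω₁ Ω₂ : ℂ, IsBasis N a Ω₁ Ω₂ →
    ∀ p q r s : ℤ, p * s - q * r = 1 → (N : ℤ) ∣ r →
      (|r| ≤ (N : ℤ) ^ 2 → CoordBound a Ω₁ Ω₂ p q r s (ρ * (N : ℝ) ^ κ)) ∧
      (r ≠ 0 → CoordBound a Ω₁ Ω₂ p q r s
        (ρ * (N : ℝ) ^ (κ + 1) * (1 + Real.log |(r : ℝ)|)))

/-- the bounds with the exponent `κ` hold for all elliptic curves with `|c₄|, |c₆| ≤ d ^ A` for which
`d` divides `P (c₄, c₆) ≠ 0` -/
def Good (κ : ℝ) (P : MvPolynomial (Fin 2) ℤ) (A : ℝ) (d : ℕ) : Prop :=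
  ∀ W : WeierstrassCurve ℤ, IsGlobalMinimal W → MvPolynomial.eval ![W.c₄, W.c₆] P ≠ 0 →
    (d : ℤ) ∣ MvPolynomial.eval ![W.c₄, W.c₆] P → |(W.c₄ : ℝ)| ≤ (d : ℝ) ^ A →
      |(W.c₆ : ℝ)| ≤ (d : ℝ) ^ A → CurveBound κ W

/-- the sums of `exp (-t v n)` converge for all `t > 0` -/
def Thin (v : ℕ → ℝ) : Prop := ∀ t : ℝ, 0 < t → Summable fun n : ℕ => Real.exp (-(t * v n))

theorem bound_of {κ : ℝ} (hκ : 14 ≤ κ) {W : WeierstrassCurve ℤ} (hW : IsGlobalMinimal W)
    (h : ¬ CL (12 * (κ - 14)) W.c₄ W.c₆) : CurveBound κ W := by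
  intro N a ρ hN hA Ω₁ Ω₂ hb p q r s hdet hr
  exact of_not_CL (m := 12 * (κ - 14)) hW (by linarith) (by linarith) h hN
    ⟨hA.newform, hA.level, hA.trace, hA.euler, hA.pos, hA.periods⟩ hb p q r s hdet hr

theorem good_of {κ : ℝ} (hκ : 14 ≤ κ) {P : MvPolynomial (Fin 2) ℤ} {A : ℝ} {d : ℕ}
    (h : d ∉ Pool.Agent.Seat74.BM.DivSet (CL (12 * (κ - 14))) P A) : Good κ P A d := by
  intro W hW h1 h2 h3 h4
  exact bound_of hκ hW fun hb => h ⟨W.c₄, W.c₆, hb, h1, h2, h3, h4⟩

theorem part_one (v : ℕ → ℝ) (hv : Thin v) (P : MvPolynomial (Fin 2) ℤ) (A θ κ : ℝ) (hA : 0 < A)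
    (hθ0 : 0 ≤ θ) (hθ1 : θ < 1) (hκ : 14 < κ) :
    ∃ E : Set ℝ, dimH E ≤ ENNReal.ofReal (A / ((κ - 14) * (1 - θ))) ∧ ∀ α : ℝ, 1 < α → α ∉ E →
      ∃ n₀ : ℕ, ∀ n : ℕ, n₀ ≤ n → ∀ d : ℕ, |(d : ℝ) - α ^ (v n)| ≤ (α ^ (v n)) ^ θ →
        Good κ P A d := by
  have hκ0 : 0 < κ - 14 := by linarith
  have hθ2 : 0 < 1 - θ := by linarith
  obtain ⟨E, h1, h2⟩ := near_one (v := v) hv (Bd := CL (12 * (κ - 14))) (σ := 1 / (κ - 14))
    (by positivity) (fun ε hε => by
      obtain ⟨C, hC, h1⟩ := count_CL (12 * (κ - 14)) ε (by positivity) hε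
      have e : 12 / (12 * (κ - 14)) = 1 / (κ - 14) := by
        field_simp
      rw [e] at h1
      exact ⟨C, hC, h1⟩) P hA hθ0 hθ1
  refine ⟨E, h1.trans (le_of_eq ?_), fun α hα hαE => ?_⟩
  · congr 1
    field_simp
  · obtain ⟨n₀, hn⟩ := h2 α hα hαE
    exact ⟨n₀, fun n hn1 d hd => good_of hκ.le (hn n hn1 d hd)⟩

theorem part_two (v : ℕ → ℝ) (hv : Thin v) :
    ∃ E : Set ℝ, dimH E = 0 ∧ ∀ α : ℝ, 1 < α → α ∉ E → ∀ (P : MvPolynomial (Fin 2) ℤ) (A θ : ℝ),
      θ < 1 → ∃ κ : ℝ, ∀ n d : ℕ, |(d : ℝ) - α ^ (v n)| ≤ (α ^ (v n)) ^ θ → Good κ P A d := by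
  obtain ⟨E, h1, h2⟩ := near_all (v := v) hv CL (fun h hb => hb.mono h) (fun Y => by
    obtain ⟨n, hn⟩ := pow_unbounded_of_one_lt ((max 1 Y) ^ 3) (one_lt_two : (1 : ℝ) < 2)
    refine ⟨(n : ℝ), fun a b ha hb => ?_⟩
    rintro ⟨W, -, -, -, h⟩
    have h3 : hgt a b ≤ (max 1 Y) ^ 3 :=
      Pool.Agent.Seat74.BM.hgt_le_cube (le_max_left _ _) (ha.trans (le_max_right _ _))
        (hb.trans (le_max_right _ _))
    rw [Real.rpow_natCast] at h
    have h4 : (2 : ℝ) ^ n ≤ (max 2 (Pool.Agent.H39R3.condW W : ℝ)) ^ n :=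
      pow_le_pow_left₀ (by norm_num) (le_max_left _ _) n
    linarith) (fun κ hκ ε hε => count_CL κ ε hκ hε)
  refine ⟨E, h1, fun α hα hαE P A θ hθ => ?_⟩
  obtain ⟨κ, hκ, h3⟩ := h2 α hα hαE P A θ hθ
  refine ⟨14 + κ / 12, fun n d hd => ?_⟩
  have e : 12 * (14 + κ / 12 - 14) = κ := by ring
  exact good_of (by linarith [div_nonneg hκ.le (by norm_num : (0 : ℝ) ≤ 12)]) (by
    rw [e]
    exact h3 n d hd)

/-- **Theorem.** (1) For all exponents `v n` such that the sums of `exp (-t v n)` converge for all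
`t > 0` there is a set `E` of Hausdorff dimension zero such that for every real `α > 1` outside `E`,
every polynomial `P` in two variables over the integers, every `A` and every `θ < 1` there is `κ` such
that all the integers `d ≥ 0` with `|d - α ^ (v n)| ≤ α ^ (θ v n)` for some `n` are `Good κ P A`. (2) For
given `P`, `A > 0`, `0 ≤ θ < 1` and `κ > 14` there is a set `E` of dimension at most
`A / ((κ - 14) (1 - θ))` such that for each `α > 1` outside `E` and all but finitely many `n` all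
the integers `d ≥ 0` with `|d - α ^ (v n)| ≤ α ^ (θ v n)` are `Good κ P A`. (3) The exponents
`v n = n` and `v n = (n + 1) ^ δ`, `δ > 0`, have the required property. -/
theorem result :
    (∀ v : ℕ → ℝ, Thin v → ∃ E : Set ℝ, dimH E = 0 ∧ ∀ α : ℝ, 1 < α → α ∉ E →
      ∀ (P : MvPolynomial (Fin 2) ℤ) (A θ : ℝ), θ < 1 → ∃ κ : ℝ, ∀ n d : ℕ,
        |(d : ℝ) - α ^ (v n)| ≤ (α ^ (v n)) ^ θ → Good κ P A d) ∧
    (∀ v : ℕ → ℝ, Thin v → ∀ (P : MvPolynomial (Fin 2) ℤ) (A θ κ : ℝ), 0 < A → 0 ≤ θ → θ < 1 →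
      14 < κ → ∃ E : Set ℝ, dimH E ≤ ENNReal.ofReal (A / ((κ - 14) * (1 - θ))) ∧
        ∀ α : ℝ, 1 < α → α ∉ E → ∃ n₀ : ℕ, ∀ n : ℕ, n₀ ≤ n → ∀ d : ℕ,
          |(d : ℝ) - α ^ (v n)| ≤ (α ^ (v n)) ^ θ → Good κ P A d) ∧
    Thin (fun n : ℕ => (n : ℝ)) ∧ (∀ δ : ℝ, 0 < δ → Thin (fun n : ℕ => ((n : ℝ) + 1) ^ δ)) :=
  ⟨fun v hv => part_two v hv,
    fun v hv P A θ κ hA h0 h1 hκ => part_one v hv P A θ κ hA h0 h1 hκ,
    Pool.Agent.Seat74.BM.thin_id, Pool.Agent.Seat74.BM.thin_pow⟩

end Pool.Agent.Results.MP_bde085_nt.ValuesNearPowers
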