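import Mathlib
import Pool.Agent.Helper29S.Dim
import Pool.Agent.Results.MP_bde085_nt.ValuesNearPowers

/-!
# The Shimura maps of the newforms of all but very few elliptic curves

Q1 asks for constants `κ`, `C` such that the coordinates of `H(γ)` in the basis `Ω₁`, `Ω₂` are at most
`C N ^ κ`, for all newforms `f` of level `N` with integral coefficients and all `γ ∈ Γ₀(N)` with lower
left entry `|r| ≤ N ^ 2`.

Let `κ > 14` and `ε > 0`. There are about `H ^ 2` elliptic curves over `ℚ` whose global minimal equation
has invariants `|c₄|, |c₆| ≤ H`. The pairs `(c₄, c₆)` of at most `C H ^ (1 / (κ - 14) + ε)` of them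
belong to curves for whose newform the bounds of Q1 with the exponent `κ` (or the bounds for all matrices,
with logarithmic growth) fail. In particular the exponent of the number of the exceptions tends to `0` for
`κ → ∞`. There is no condition on the reduction, torsion or isogenies; `AllInvariants` is about the
invariants `j` of one-parameter families. The definitions are those of `ValuesNearPowers`.

Proof. If the height `max (|c₄|³, c₆²)` is at most `M ^ m`, where `M` is the conductor away from `6` (or
`2`), the bounds hold with `κ = 14 + m / 12`, by the lower bound for the periods and the bound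
`|H(γ)| ≤ 4 r ^ 2` (`Pool.Agent.N365.SM`, helper365). The other curves with `|c₄|, |c₆| ≤ H` come from
minimal short models `(a, b)`, `|a|, |b| ≤ 54 H`, with `M ≤ H ^ (3 / m)`. Such a pair is `(d² a', d³ b')`
with `d ≤ 6 M ^ (1 / 2)` and a reduced pair `(a', b')` whose discriminant is composed of primes with
product at most `M`, and there are at most `C M ^ (7 / 2) H ^ ε` of these by the theorem `count_all` of
helper29 (reduction theory of binary cubic forms, `S`-integral points).
-/

set_option autoImplicit false
set_option linter.unusedSectionVars false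

namespace Pool.Agent.Results.MP_bde085_nt.AllCurves

open Pool.Agent.Seat74.BM (CL count_CL)
open Pool.Agent.Results.MP_bde085_nt.ValuesNearPowers (IsGlobalMinimal CurveBound bound_of)

/-- **Theorem.** Let `κ > 14`, `ε > 0`. At most `C H ^ (1 / (κ - 14) + ε)` of the pairs of integers
of absolute value at most `H` are the invariants `(c₄, c₆)` of a global minimal equation for which the
bounds with the exponent `κ` fail. -/
theorem result (κ ε : ℝ) (hκ : 14 < κ) (hε : 0 < ε) : ∃ C : ℝ, ∀ H : ℕ, 1 ≤ H →
    ({x : ℤ × ℤ | |x.1| ≤ H ∧ |x.2| ≤ H ∧ ∃ W : WeierstrassCurve ℤ, IsGlobalMinimal W ∧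
      W.c₄ = x.1 ∧ W.c₆ = x.2 ∧ ¬ CurveBound κ W}.ncard : ℝ) ≤
        C * (H : ℝ) ^ (1 / (κ - 14) + ε) := by
  have hκ0 : 0 < κ - 14 := by linarith
  obtain ⟨C, hC, h1⟩ := count_CL (12 * (κ - 14)) ε (by positivity) hε
  refine ⟨C, fun H hH => ?_⟩
  have hH1 : (1 : ℝ) ≤ H := by exact_mod_cast hH
  have e : 12 / (12 * (κ - 14)) = 1 / (κ - 14) := by
    field_simp
  have h2 := h1 H hH1
  rw [e] at h2
  refine (Pool.Agent.Helper29S.finite_of_card (B := C * (H : ℝ) ^ (1 / (κ - 14) + ε))
    fun F hF => h2 F fun x hx => ?_).2
  obtain ⟨g1, g2, W, hW, g3, g4, g5⟩ := hF hx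
  refine ⟨?_, by exact_mod_cast g1, by exact_mod_cast g2⟩
  by_contra hcon
  exact g5 (bound_of hκ.le hW (by rwa [g3, g4]))

end Pool.Agent.Results.MP_bde085_nt.AllCurves
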