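import Mathlib
import Pool.Agent.Seat74.BM.Hgt
import Pool.Agent.Seat74.BM.Fam

/-!
# The Shimura maps of the newforms of all but very few members of every one-parameter family, whatever
# the poles of the invariant are

Q1 asks for constants `κ`, `C` such that the coordinates of `H(γ)` in the basis `Ω₁`, `Ω₂` are at most
`C N ^ κ`, for all newforms `f` of level `N` with integral coefficients and all `γ ∈ Γ₀(N)` with lower
left entry `|r| ≤ N ^ 2`. For `κ > 15` let `𝓑(κ)` be the set of the rational numbers `j` such that the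
bounds of Q1 with the exponent `κ` (or the bounds for all matrices, with logarithmic growth) fail for
the newform of SOME elliptic curve over `ℚ` of invariant `j`. All elliptic curves are considered, without
any condition on the reduction, torsion or isogenies, and all quadratic twists at the same time.

For every non-constant rational function `J = A / D` over `ℚ` of degree `d` at most
`C B ^ (7 d / (24 (κ - 15)) + ε)` of the about `B ^ 2` rational numbers `t` of height at most `B` have
`D(t) = 0` or `J(t) ∈ 𝓑(κ)`. In particular the exponent tends to `0` for `κ → ∞` for every `J`, also if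
`J` is a polynomial. For `J(t) = t` the theorem says that `𝓑(κ)` has at most
`C H ^ (7 / (24 (κ - 15)) + ε)` members of height at most `H`.

The starting result `EveryOneParameterFamily` has `O(B ^ (1 + ε))` exceptional `t` if `J` has only one
pole on the projective line (in particular for `J(t) = t` and for all polynomials), and uses the primes
at the poles of `J(t)`; here no multiplicative reduction is needed.

Proof. Let `(a, b)` be the minimal short model of a curve, `M` its conductor away from `6` (or `2`), and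
`(a', b')` the reduced quadratic twist. `|D(a', b')|` and `|a'|³` are at most a constant times
`M ^ 4 H(j)`, so that the height of the curve is at most a constant times `M ^ 7 H(j)`
(`Pool.Agent.Helper29S.AllCnt`, helper29), and the bounds hold with `κ = 15 + m / 12` if
`H(j) ≤ M ^ m`, by the lower bound for the periods and the bound `|H(γ)| ≤ 4 r ^ 2`
(`Pool.Agent.N365.SM`, helper365). The `j` of height at most `H` with `H(j) > M ^ m` come from
pairs `(a', b')` for which the product of the primes dividing the discriminant is at most `H ^ (1 / m)`,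
and the number of these pairs is at most `C H ^ (7 / (2 m) + ε)` by `count_all` of helper29 (reduction
theory of binary cubic forms and `S`-integral points). Every `j` has at most `d` preimages `t`, and the
height of `J(t)` is at most a constant times `B ^ d`.
-/

set_option autoImplicit false
set_option linter.unusedSectionVars false

namespace Pool.Agent.Results.MP_bde085_nt.AllInvariants

open Polynomial
open Pool.Agent.TH133.SH (IsNewform IsBasis CoordBound Hval)
open Pool.Agent.Seat74.BM (Large IsFun count_large fam_count of_not_large large_single)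

/-- `W` is a global minimal Weierstrass equation: `Δ ≠ 0`, and `|Δ|` is smallest among all integral
Weierstrass equations that are obtained from `W` by a change of variables over `ℚ` -/
def IsGlobalMinimal (W : WeierstrassCurve ℤ) : Prop :=
  W.Δ ≠ 0 ∧ ∀ W' : WeierstrassCurve ℤ,
    (∃ C : WeierstrassCurve.VariableChange ℚ,
      C • W.map (Int.castRingHom ℚ) = W'.map (Int.castRingHom ℚ)) → |W.Δ| ≤ |W'.Δ|

/-- `N₆`, the prime-to-6 part of the conductor of a global minimal equation: the product over the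
primes `p ≥ 5` dividing `Δ` of `p` (multiplicative reduction, `p ∤ c₄`) or `p²` (additive,
`p ∣ c₄`) -/
def conductor6 (W : WeierstrassCurve ℤ) : ℕ :=
  ∏ p ∈ W.Δ.natAbs.primeFactors.filter (fun p => 5 ≤ p), if (p : ℤ) ∣ W.c₄ then p ^ 2 else p

/-- the number of the solutions modulo `p` of the affine equation `W` -/
noncomputable def affineCount (W : WeierstrassCurve ℤ) (p : ℕ) : ℕ :=
  {P : ZMod p × ZMod p | P.2 ^ 2 + (W.a₁ : ZMod p) * P.1 * P.2 + (W.a₃ : ZMod p) * P.2 =
    P.1 ^ 3 + (W.a₂ : ZMod p) * P.1 ^ 2 + (W.a₄ : ZMod p) * P.1 + (W.a₆ : ZMod p)}.ncard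

/-- `f = ∑ a(n) q ^ n` is the newform of level `N` of the elliptic curve with the global minimal
equation `W`, and `ρ` is the Manin constant.  By the theorems of Eichler, Shimura, Atkin, Lehner,
Carayol, Wiles and others all newforms of Q1 and all elliptic curves over `ℚ` occur. -/
structure Attached (N : ℕ) (a : ℕ → ℤ) (W : WeierstrassCurve ℤ) (ρ : ℝ) : Prop where
  /-- `f` is a newform of level `N` with integral coefficients, as in Q1 -/
  newform : IsNewform N a
  /-- the level is divisible by the prime-to-6 part of the conductor (it is the conductor) -/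
  level : conductor6 W ∣ N
  /-- the coefficients `a(p)`, for all primes `p`, including those of bad reduction -/
  trace : ∀ p : ℕ, p.Prime → a p = (p : ℤ) - (affineCount W p : ℤ)
  /-- the Euler factors at the primes dividing the level -/
  euler : ∀ p : ℕ, p.Prime → p ∣ N → ∀ n : ℕ, a (p * n) = a p * a n
  pos : 0 < ρ
  /-- `ρ H(γ)` is in the lattice of the periods of the Néron differential `dx / (2y + a₁x + a₃)`,
  which is the lattice with the invariants `g₂ = c₄ / 12` and `g₃ = c₆ / 216` -/
  periods : ∃ L : PeriodPair, L.g₂ = (W.c₄ : ℂ) / 12 ∧ L.g₃ = (W.c₆ : ℂ) / 216 ∧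
    ∀ p q r s : ℤ, p * s - q * r = 1 → (N : ℤ) ∣ r → (ρ : ℂ) * Hval a p q r s ∈ L.lattice

/-- the polynomial bounds for the coordinates `m(γ)`, `n(γ)` of the Shimura maps of the newforms of
all elliptic curves over `ℚ` of invariant `j`, for all `γ ∈ Γ₀(N)` with lower left entry at most
`N ^ 2`, and, with logarithmic growth, for all `γ ∈ Γ₀(N)`. The level is at least `2` (there is no
newform of weight `2` and level `1`; the smallest conductor is `11`). -/
def ShimuraBound (κ : ℝ) (j : ℚ) : Prop :=
  ∀ W : WeierstrassCurve ℤ, IsGlobalMinimal W → (W.c₄ : ℚ) ^ 3 / (W.Δ : ℚ) = j →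
    ∀ (N : ℕ) (a : ℕ → ℤ) (ρ : ℝ), 2 ≤ N → Attached N a W ρ → ∀ Ω₁ Ω₂ : ℂ, IsBasis N a Ω₁ Ω₂ →
      ∀ p q r s : ℤ, p * s - q * r = 1 → (N : ℤ) ∣ r →
        (|r| ≤ (N : ℤ) ^ 2 → CoordBound a Ω₁ Ω₂ p q r s (ρ * (N : ℝ) ^ κ)) ∧
        (r ≠ 0 → CoordBound a Ω₁ Ω₂ p q r s
          (ρ * (N : ℝ) ^ (κ + 1) * (1 + Real.log |(r : ℝ)|)))

/-- `A / D` is a rational function of degree `d ≥ 1` in lowest terms -/
structure IsFunction (d : ℕ) (A D : ℤ[X]) : Prop where
  pos : 1 ≤ d
  deg_num : A.natDegree ≤ d
  deg_den : D.natDegree ≤ d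
  deg : A.natDegree = d ∨ D.natDegree = d
  coprime : IsCoprime (A.map (Int.castRingHom ℚ)) (D.map (Int.castRingHom ℚ))

/-- the value of the polynomial `f` at the rational number `t` -/
noncomputable def value (f : ℤ[X]) (t : ℚ) : ℚ := f.eval₂ (Int.castRingHom ℚ) t

/-- `t` is not a pole of `J = A / D` and the polynomial bounds hold for the invariant `J(t)` -/
def HoldsAt (κ : ℝ) (A D : ℤ[X]) (t : ℚ) : Prop :=
  value D t ≠ 0 ∧ ShimuraBound κ (value A t / value D t)

theorem bound_of {κ : ℝ} (hκ : 15 ≤ κ) {j : ℚ} (h : ¬ Large (12 * (κ - 15)) j) :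
    ShimuraBound κ j := by
  intro W hW hj N a ρ hN hA Ω₁ Ω₂ hb p q r s hdet hr
  exact of_not_large (m := 12 * (κ - 15)) hW (by linarith) (by linarith) hj h hN
    ⟨hA.newform, hA.level, hA.trace, hA.euler, hA.pos, hA.periods⟩ hb p q r s hdet hr

theorem families (d : ℕ) (A D : ℤ[X]) (h : IsFunction d A D) (κ ε : ℝ) (hκ : 15 < κ)
    (hε : 0 < ε) : ∃ C : ℝ, ∀ B : ℕ, 1 ≤ B → ({t : ℚ | |t.num| ≤ B ∧ t.den ≤ B ∧
      ¬ HoldsAt κ A D t}.ncard : ℝ) ≤ C * (B : ℝ) ^ (7 * d / (24 * (κ - 15)) + ε) := by
  have hκ0 : 0 < κ - 15 := by linarith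
  have hF : IsFun d A D := ⟨h.pos, h.deg_num, h.deg_den, h.deg, h.coprime⟩
  obtain ⟨C, hC⟩ := fam_count (Bd := Large (12 * (κ - 15))) (σ := 7 / (24 * (κ - 15)))
    (by positivity) (fun e he => by
      obtain ⟨C, hC, h1⟩ := count_large (12 * (κ - 15)) e (by positivity) he
      refine ⟨C, hC, fun H hH s hs => ?_⟩
      have h2 := h1 H hH s hs
      have e1 : 7 / (2 * (12 * (κ - 15))) = 7 / (24 * (κ - 15)) := by ring_nf
      rwa [e1] at h2) hF ε hε
  refine ⟨C, fun B hB => ?_⟩
  have h1 := hC B hB
  have e1 : (d : ℝ) * (7 / (24 * (κ - 15))) + ε = 7 * d / (24 * (κ - 15)) + ε := by ring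
  rw [e1] at h1
  refine le_trans ?_ h1
  have hfin : {t : ℚ | |t.num| ≤ B ∧ t.den ≤ B ∧ ¬ (Pool.Agent.Seat74.BM.val D t ≠ 0 ∧
      ¬ Large (12 * (κ - 15)) (Pool.Agent.Seat74.BM.val A t /
        Pool.Agent.Seat74.BM.val D t))}.Finite :=
    (Pool.Agent.Seat74.BM.box_finite B).subset fun t ht => ⟨ht.1, ht.2.1⟩
  have hsub : {t : ℚ | |t.num| ≤ B ∧ t.den ≤ B ∧ ¬ HoldsAt κ A D t} ⊆
      {t : ℚ | |t.num| ≤ B ∧ t.den ≤ B ∧ ¬ (Pool.Agent.Seat74.BM.val D t ≠ 0 ∧
      ¬ Large (12 * (κ - 15)) (Pool.Agent.Seat74.BM.val A t /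
        Pool.Agent.Seat74.BM.val D t))} := by
    rintro t ⟨g1, g2, g3⟩
    refine ⟨g1, g2, fun h4 => g3 ⟨h4.1, bound_of hκ.le h4.2⟩⟩
  exact_mod_cast Set.ncard_le_ncard hsub hfin

/-- **Theorem.** For every rational function `J = A / D` of degree `d` over `ℚ`, every `κ > 15` and
every `ε > 0` all rational numbers `t` of height at most `B` with at most
`C B ^ (7 d / (24 (κ - 15)) + ε)` exceptions satisfy the bounds of Q1 with the exponent `κ` for the
newforms of all elliptic curves of invariant `J(t)`. -/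
theorem result (d : ℕ) (A D : ℤ[X]) (h : IsFunction d A D) (κ ε : ℝ) (hκ : 15 < κ) (hε : 0 < ε) :
    ∃ C : ℝ, ∀ B : ℕ, 1 ≤ B → ({t : ℚ | |t.num| ≤ B ∧ t.den ≤ B ∧
      ¬ HoldsAt κ A D t}.ncard : ℝ) ≤ C * (B : ℝ) ^ (7 * d / (24 * (κ - 15)) + ε) :=
  families d A D h κ ε hκ hε

/-- the identity function: all rational invariants -/
example (κ ε : ℝ) (hκ : 15 < κ) (hε : 0 < ε) : ∃ C : ℝ, ∀ B : ℕ, 1 ≤ B →
    ({j : ℚ | |j.num| ≤ B ∧ j.den ≤ B ∧ ¬ ShimuraBound κ j}.ncard : ℝ) ≤
      C * (B : ℝ) ^ (7 / (24 * (κ - 15)) + ε) := by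
  obtain ⟨C, hC⟩ := result 1 X 1 ⟨le_rfl, by simp, by simp, Or.inl (by simp),
    by simpa using isCoprime_one_right⟩ κ ε hκ hε
  refine ⟨C, fun B hB => ?_⟩
  have h1 := hC B hB
  simpa [HoldsAt, value] using h1

end Pool.Agent.Results.MP_bde085_nt.AllInvariants
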