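import Mathlib
import Pool.Agent.Helper29S.Dim
import Pool.Agent.Results.MP_bde085_nt.AllInvariants

/-!
# The Shimura maps of the newforms of all elliptic curves whose invariant is near a typical point

Q1 asks for constants `κ`, `C` such that the coordinates of `H(γ)` in the basis `Ω₁`, `Ω₂` are at most
`C N ^ κ`, for all newforms `f` of level `N` with integral coefficients and all `γ ∈ Γ₀(N)` with lower
left entry `|r| ≤ N ^ 2`. All elliptic curves over `ℚ` are considered, without any condition on the
reduction, torsion or isogenies, and all quadratic twists. `ShimuraBound κ j` says that the bounds of Q1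
with the exponent `κ` (and the bounds for all matrices, with logarithmic growth) hold for the newforms of
all elliptic curves of invariant `j`; the definitions are those of `AllInvariants`.

Let `X` be a metric space and `c : ℚ → X` any map.

* There is a set of Hausdorff dimension zero such that for every `x ∈ X` outside it and every `τ > 0`
  one exponent `κ` is sufficient for ALL elliptic curves with `dist (x, c(j(E))) ≤ H(j(E)) ^ (-τ)`.
* For given `κ > 15` and `τ > 0` and every `x` outside a set of Hausdorff dimension at most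
  `7 / (24 (κ - 15) τ)` only finitely many `j` with `dist (x, c(j)) ≤ H(j) ^ (-τ)` are invariants of
  curves for which the bounds with the exponent `κ` fail.

For example `X = ℝ`, `ℂ`, `ℚ_p`, `ℝ × ℚ_p`. By Dirichlet's theorem every irrational real number has
infinitely many approximations `j` with `|x - j| ≤ H(j) ^ (-2)` up to a constant; for `τ` close to `0` the
set of the curves in question is large.

Proof. At most `C H ^ (7 / (24 (κ - 15)) + ε)` of the `j` of height at most `H` violate the bounds
(`AllInvariants`, and `Pool.Agent.Seat74.BM.Cnt` for the sets `Large m`, which decrease with `m`), and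
coverings by balls of radius `H ^ (-τ)` (`Pool.Agent.Helper29S.law`).
-/

set_option autoImplicit false
set_option linter.unusedSectionVars false

namespace Pool.Agent.Results.MP_bde085_nt.InvariantsNearNumbers

open Filter Topology
open Pool.Agent.Seat74.BM (Large count_large large_single)
open Pool.Agent.Results.MP_bde085_nt.AllInvariants (ShimuraBound bound_of)

/-- the height of a rational number -/
def height (j : ℚ) : ℕ := max j.num.natAbs j.den

/-- the metric law for the approximation of the points of a metric space `X` by the points `c j`,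
`j ∈ ℚ` -/
def Law (X : Type) [MetricSpace X] (c : ℚ → X) : Prop :=
  (∃ E : Set X, dimH E = 0 ∧ ∀ x : X, x ∉ E → ∀ τ : ℝ, 0 < τ → ∃ κ : ℝ, ∀ j : ℚ,
    dist x (c j) ≤ (height j : ℝ) ^ (-τ) → ShimuraBound κ j) ∧
  (∀ κ τ : ℝ, 15 < κ → 0 < τ → ∃ E : Set X,
    dimH E ≤ ENNReal.ofReal (7 / (24 * (κ - 15)) / τ) ∧ ∀ x : X, x ∉ E →
      {j : ℚ | dist x (c j) ≤ (height j : ℝ) ^ (-τ) ∧ ¬ ShimuraBound κ j}.Finite)

/-- **Theorem.** The metric law holds for every metric space `X` and every map `c : ℚ → X`. -/
theorem result (X : Type) [MetricSpace X] (c : ℚ → X) : Law X c := by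
  have hs0 : Tendsto (fun κ : ℝ => 7 / (24 * (κ - 15))) atTop (𝓝 0) := by
    apply Filter.Tendsto.const_div_atTop
    apply Filter.Tendsto.const_mul_atTop (by norm_num)
    exact tendsto_atTop_add_const_right _ _ tendsto_id
  obtain ⟨h1, h2⟩ := Pool.Agent.Helper29S.law (X := X) (ι := ℚ)
    (fun κ j => Large (12 * (κ - 15)) j) c
    (fun j => (height j : ℝ)) (fun j => by exact_mod_cast Pool.Agent.Helper29S.one_le_ht j)
    (fun {κ κ' j} hκ hb => hb.mono (by linarith))
    (fun j => by
      obtain ⟨m, -, hm⟩ := large_single j
      refine ⟨15 + m / 12, ?_⟩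
      have e : 12 * (15 + m / 12 - 15) = m := by ring
      rw [e]
      exact hm)
    (κ₀ := 15) (fun κ => 7 / (24 * (κ - 15))) (fun κ hκ => by
      have : 0 < κ - 15 := by linarith
      positivity) hs0
    (fun κ hκ ε hε => by
      have : 0 < κ - 15 := by linarith
      obtain ⟨C, -, hC⟩ := count_large (12 * (κ - 15)) ε (by positivity) hε
      refine ⟨C, fun H hH F hF => ?_⟩
      have h3 := hC H hH F hF
      have e1 : 7 / (2 * (12 * (κ - 15))) = 7 / (24 * (κ - 15)) := by ring_nf
      rwa [e1] at h3)
  constructor
  · obtain ⟨E, hE, h3⟩ := h1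
    refine ⟨E, hE, fun x hx τ hτ => ?_⟩
    obtain ⟨κ, hκ, h4⟩ := h3 x hx τ hτ
    refine ⟨max κ 15, fun j hd => bound_of (le_max_right _ _) fun hb => h4 j hd ?_⟩
    exact hb.mono (by linarith [le_max_left κ 15])
  · intro κ τ hκ hτ
    obtain ⟨E, hE, h3⟩ := h2 κ τ hκ hτ
    refine ⟨E, hE, fun x hx => (h3 x hx).subset ?_⟩
    rintro j ⟨h4, h5⟩
    refine ⟨h4, ?_⟩
    by_contra hcon
    exact h5 (bound_of hκ.le hcon)

/-- the real numbers -/
example : Law ℝ (fun j => (j : ℝ)) := result _ _

/-- the `p`-adic numbers -/
example (p : ℕ) [Fact p.Prime] : Law ℚ_[p] (fun j => (j : ℚ_[p])) := result _ _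

/-- simultaneous approximation -/
example (p : ℕ) [Fact p.Prime] : Law (ℝ × ℚ_[p]) (fun j => ((j : ℝ), (j : ℚ_[p]))) := result _ _

end Pool.Agent.Results.MP_bde085_nt.InvariantsNearNumbers
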